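import Pool.Agent.Y599.OC.Main

/-!
# List homomorphisms to odd cycles on graphs whose cycle space is spanned by short cycles

LIST 3-COLORING is the list homomorphism problem for the triangle `C₃`.  For every odd `q ≥ 3` the
list homomorphism problem for the cycle `C_q` is solvable in polynomial time on the bipartite
graphs whose cycle space is spanned by closed walks of length less than `2 q` (for `q = 3`: by the
cycles of length four).  Chordal bipartite graphs belong to all these classes.
-/

namespace Pool.Agent.Results.MP_6659bd_lc.OddCycleTargets

open Pool.Agent.NPC Pool.Agent.H237R2.CB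

/-- The cycle space of `G` is spanned by the closed walks of length less than `2 q` (in the dual
formulation): every antisymmetric integral weight whose sum along each closed walk of length less
than `2 q` is zero has sum zero along every closed walk. -/
def ShortCyclesSpan (q : ℕ) {V : Type} (G : SimpleGraph V) : Prop :=
  ∀ θ : V → V → ℤ, (∀ u v, θ u v = - θ v u) →
    (∀ (u : V) (p : G.Walk u u), p.length < 2 * q → (p.darts.map fun d => θ d.fst d.snd).sum = 0) →
      ∀ (u : V) (p : G.Walk u u), (p.darts.map fun d => θ d.fst d.snd).sum = 0

/-- The instance (lists of the vertices `0, ..., n - 1`, edges) has a homomorphism to the cycle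
`C_q` with vertices `0, ..., q - 1` that respects the lists. -/
def ListCycleColorable (q : ℕ) (I : ListInstance) : Prop :=
  ∃ c : gr I.1.length I.2 →g SimpleGraph.cycleGraph q, ∀ v, (c v).val ∈ I.1.get v

/-- The partial map of the instance (`some k` for the vertices with prescribed image `k`) extends
to a homomorphism to the cycle `C_q`. -/
def ExtendsToCycle (q : ℕ) (I : PreInstance) : Prop :=
  ∃ c : gr I.1.length I.2 →g SimpleGraph.cycleGraph q, ∀ v k, I.1.get v = some k → (c v).val = k

/-- For every odd `q ≥ 3` list homomorphism to `C_q` and extension of partial homomorphisms to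
`C_q` are solvable in polynomial time on the bipartite graphs whose cycle space is spanned by the
closed walks of length less than `2 q`.  All chordal bipartite graphs are of this kind, and for
`q = 3` these problems are LIST 3-COLORING and 3-PRECOLORING EXTENSION. -/
theorem result :
    (∀ q : ℕ, 3 ≤ q → Odd q →
      (∃ L : Set (List Bool), InP L ∧ ∀ I : ListInstance, (gr I.1.length I.2).Colorable 2 →
        ShortCyclesSpan q (gr I.1.length I.2) → (bits I ∈ L ↔ ListCycleColorable q I)) ∧
      ∃ L : Set (List Bool), InP L ∧ ∀ I : PreInstance, (gr I.1.length I.2).Colorable 2 →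
        ShortCyclesSpan q (gr I.1.length I.2) → (bits I ∈ L ↔ ExtendsToCycle q I)) ∧
    (∀ (V : Type) (G : SimpleGraph V), ChordalBipartite G →
      G.Colorable 2 ∧ ∀ q : ℕ, 3 ≤ q → ShortCyclesSpan q G) ∧
    (∀ I : ListInstance, ListCycleColorable 3 I ↔ ListThreeColorable I) ∧
    ∀ I : PreInstance, ExtendsToCycle 3 I ↔ PrecoloringExtends I :=
  ⟨fun _ hq hodd => ⟨Y599.OC.list_main hq hodd, Y599.OC.pre_main hq hodd⟩,
    fun _ _ hG => ⟨hG.1, fun _ hq => (Y599.OC.spanned_chordalBipartite hG hq).2⟩,
    Y599.OC.listHom_three, Y599.OC.extHom_three⟩

end Pool.Agent.Results.MP_6659bd_lc.OddCycleTargets
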